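import Mathlib

/-!
# Two pure lemmas (MP_b06970_an)
-/

namespace Pool.Agent.SIr

open MeasureTheory intervalIntegral

/-- A continuous homomorphism from the additive group of the reals to the multiplicative group of
the complex numbers is an exponential. -/
theorem exp_of_hom {f : ℝ → ℂ} (hf : Continuous f) (hadd : ∀ s t, f (s + t) = f s * f t)
    (h0 : f 0 = 1) : ∃ c : ℂ, ∀ t : ℝ, f t = Complex.exp (c * t) := by
  -- an interval with nonzero integral
  obtain ⟨a, ha, hI⟩ : ∃ a : ℝ, 0 < a ∧ (∫ x in (0 : ℝ)..a, f x) ≠ 0 := by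
    by_contra hcon
    push Not at hcon
    have h1 : HasDerivAt (fun u => ∫ x in (0 : ℝ)..u, f x) (f 0) 0 :=
      intervalIntegral.integral_hasDerivAt_right (hf.intervalIntegrable _ _)
        hf.stronglyMeasurable.stronglyMeasurableAtFilter hf.continuousAt
    have h2 : HasDerivWithinAt (fun u => ∫ x in (0 : ℝ)..u, f x) (f 0) (Set.Ici 0) 0 :=
      h1.hasDerivWithinAt
    have h3 : HasDerivWithinAt (fun _ : ℝ => (0 : ℂ)) (f 0) (Set.Ici 0) 0 := by
      refine h2.congr (fun u hu => ?_) (by simp)
      rcases eq_or_lt_of_le (Set.mem_Ici.1 hu) with h | h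
      · rw [← h]; simp
      · exact (hcon u h).symm
    have h4 : HasDerivWithinAt (fun _ : ℝ => (0 : ℂ)) 0 (Set.Ici 0) 0 :=
      hasDerivWithinAt_const _ _ _
    have h5 := (uniqueDiffWithinAt_Ici (0 : ℝ)).eq_deriv _ h3 h4
    rw [h0] at h5
    exact one_ne_zero h5
  set I := ∫ x in (0 : ℝ)..a, f x with hIdef
  have hshift : ∀ t : ℝ, f t * I = ∫ x in t..(t + a), f x := by
    intro t
    rw [hIdef, ← intervalIntegral.integral_const_mul]
    have : (∫ x in (0 : ℝ)..a, f t * f x) = ∫ x in (0 : ℝ)..a, f (t + x) := by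
      congr 1
      ext x
      rw [hadd]
    rw [this, intervalIntegral.integral_comp_add_left (fun x => f x) t, add_zero]
  have hderiv : ∀ t : ℝ, HasDerivAt f ((f a - 1) / I * f t) t := by
    intro t
    have e : ∀ u : ℝ, f u = (∫ x in (0 : ℝ)..(u + a), f x) / I - (∫ x in (0 : ℝ)..u, f x) / I := by
      intro u
      rw [← sub_div, intervalIntegral.integral_interval_sub_left (hf.intervalIntegrable _ _)
        (hf.intervalIntegrable _ _), ← hshift, mul_div_cancel_right₀ _ hI]
    have d1 : HasDerivAt (fun u => ∫ x in (0 : ℝ)..u, f x) (f t) t :=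
      intervalIntegral.integral_hasDerivAt_right (hf.intervalIntegrable _ _)
        hf.stronglyMeasurable.stronglyMeasurableAtFilter hf.continuousAt
    have d2 : HasDerivAt (fun u => ∫ x in (0 : ℝ)..u, f x) (f (t + a)) (t + a) :=
      intervalIntegral.integral_hasDerivAt_right (hf.intervalIntegrable _ _)
        hf.stronglyMeasurable.stronglyMeasurableAtFilter hf.continuousAt
    have d3 : HasDerivAt (fun u => ∫ x in (0 : ℝ)..(u + a), f x) (f (t + a)) t := by
      have := d2.comp_add_const t a
      exact this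
    have d4 := (d3.div_const I).sub (d1.div_const I)
    have e2 : f (t + a) / I - f t / I = (f a - 1) / I * f t := by
      rw [hadd]
      ring
    rw [e2] at d4
    exact d4.congr_of_eventuallyEq (Filter.Eventually.of_forall (fun u => e u))
  set c := (f a - 1) / I with hc
  refine ⟨c, fun t => ?_⟩
  have hg : ∀ t : ℝ, HasDerivAt (fun u : ℝ => f u * Complex.exp (-(c * u))) 0 t := by
    intro t
    have d1 := hderiv t
    have d2 : HasDerivAt (fun u : ℝ => Complex.exp (-(c * u))) (Complex.exp (-(c * t)) * (-c)) t := by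
      have d3 : HasDerivAt (fun u : ℝ => -(c * (u : ℂ))) (-c) t := by
        have h6 : HasDerivAt (fun u : ℝ => (-c) * (u : ℂ)) (-c) t := by
          simpa using (hasDerivAt_id t).ofReal_comp.const_mul (-c)
        have h7 : (fun u : ℝ => -(c * (u : ℂ))) = fun u : ℝ => (-c) * (u : ℂ) := by
          funext u
          ring
        rw [h7]
        exact h6
      exact d3.cexp
    have d5 := d1.mul d2
    have e : c * f t * Complex.exp (-(c * t)) + f t * (Complex.exp (-(c * t)) * (-c)) = 0 := by ring
    rw [e] at d5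
    exact d5
  have hconst := is_const_of_deriv_eq_zero (f := fun u : ℝ => f u * Complex.exp (-(c * u)))
    (fun t => (hg t).differentiableAt) (fun t => (hg t).deriv) t 0
  simp only [h0, Complex.ofReal_zero, mul_zero, neg_zero, Complex.exp_zero, mul_one] at hconst
  rw [Complex.exp_neg] at hconst
  rw [← div_eq_mul_inv, div_eq_one_iff_eq (Complex.exp_ne_zero _)] at hconst
  exact hconst

/-- Three complex numbers are linearly dependent over the reals. -/
theorem real_dep (c₁ c₂ c₃ : ℂ) : ∃ t₁ t₂ t₃ : ℝ, ¬ (t₁ = 0 ∧ t₂ = 0 ∧ t₃ = 0) ∧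
    (t₁ : ℂ) * c₁ + t₂ * c₂ + t₃ * c₃ = 0 := by
  have h : ¬ LinearIndependent ℝ ![c₁, c₂, c₃] := by
    intro h
    have h1 := h.fintype_card_le_finrank
    rw [Complex.finrank_real_complex] at h1
    simp at h1
  rw [Fintype.not_linearIndependent_iff] at h
  obtain ⟨g, hg, i, hi⟩ := h
  refine ⟨g 0, g 1, g 2, ?_, ?_⟩
  · rintro ⟨a, b, c⟩
    apply hi
    fin_cases i
    · exact a
    · exact b
    · exact c
  · simpa [Fin.sum_univ_three, Complex.real_smul] using hg

end Pool.Agent.SIr
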